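import Pool.Agent.Y267.RS.Stm

set_option autoImplicit false

/-!
# Project RS, part E2: existence of good windows
-/

namespace Pool.Agent.Y925.RS

open Pool.Agent.Y267.RS Set Filter Topology MeasureTheory

noncomputable section

theorem neq {x : ℝ} (h : |x| ≤ 1 / 2) : ‖(x : T1)‖ = |x| := by
  rw [AddCircle.norm_coe_eq_abs_iff 1 one_ne_zero]; simpa using h

theorem nle (x : ℝ) : ‖(x : T1)‖ ≤ |x| := by
  rcases le_or_gt |x| (1 / 2) with h | h
  · exact (neq h).le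
  · refine le_trans ?_ h.le
    have := AddCircle.norm_le_half_period (1 : ℝ) (x := (x : T1)) one_ne_zero
    simpa using this

theorem Q1024 (j : ℕ) : (1024 : ℝ) ≤ Q j := by
  have h : 1024 ≤ Q j := by
    unfold Q
    calc 1024 = 2 ^ 10 := by norm_num
      _ ≤ 2 ^ (10 * 3 ^ j) := Nat.pow_le_pow_right (by norm_num)
          (by have : 0 < 3 ^ j := by positivity
              omega)
  exact_mod_cast h

theorem Q_tendsto : Tendsto (fun j => (Q j : ℝ)) atTop atTop := by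
  refine tendsto_natCast_atTop_atTop.comp ?_
  refine tendsto_atTop_mono (fun j => ?_) tendsto_id
  unfold Q
  have h1 : j < 3 ^ j := Nat.lt_pow_self (by norm_num)
  have h2 : 10 * 3 ^ j < 2 ^ (10 * 3 ^ j) := Nat.lt_pow_self (by norm_num)
  simp only [id]
  omega

theorem Q_succ (j : ℕ) : Q (j + 1) = Q j ^ 3 := by
  unfold Q
  rw [← pow_mul, pow_succ]
  congr 1
  ring

/-- sum of a nonnegative quantity over the times hitting a fixed residue class modulo `q` -/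
theorem sumB (q : ℝ) (hq : 0 ≤ q) : ∀ M : ℕ,
    ∑ l ∈ Finset.Ico (-(M : ℤ)) M, (q / (2 * √|(l : ℝ) + 1 / 2|) + 1) ≤ 2 * (q * √(M : ℝ) + M) := by
  intro M
  induction M with
  | zero => simp
  | succ M ih =>
    have e : Finset.Ico (-((M + 1 : ℕ) : ℤ)) ((M + 1 : ℕ) : ℤ) =
        insert (-((M : ℤ) + 1)) (insert (M : ℤ) (Finset.Ico (-(M : ℤ)) M)) := by
      ext l; simp only [Finset.mem_Ico, Finset.mem_insert]; push_cast; omega
    rw [e, Finset.sum_insert (by simp only [Finset.mem_Ico, Finset.mem_insert]; omega),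
      Finset.sum_insert (by simp only [Finset.mem_Ico]; omega)]
    have a1 : |(((-((M : ℤ) + 1) : ℤ)) : ℝ) + 1 / 2| = (M : ℝ) + 1 / 2 := by
      push_cast
      rw [abs_of_nonpos (by have : (0:ℝ) ≤ M := Nat.cast_nonneg M
                            linarith)]; ring
    have a2 : |(((M : ℤ)) : ℝ) + 1 / 2| = (M : ℝ) + 1 / 2 := by
      push_cast
      rw [abs_of_nonneg (by have : (0:ℝ) ≤ M := Nat.cast_nonneg M
                            linarith)]
    rw [a1, a2]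
    have hM : (0 : ℝ) ≤ M := Nat.cast_nonneg M
    have key : q / (2 * √((M : ℝ) + 1 / 2)) ≤ q * (√((M : ℝ) + 1) - √(M : ℝ)) := by
      have s0 : 0 < √((M : ℝ) + 1 / 2) := Real.sqrt_pos.2 (by linarith)
      have s1 : 0 ≤ √((M : ℝ)) := Real.sqrt_nonneg _
      have s2 : 0 ≤ √((M : ℝ) + 1) := Real.sqrt_nonneg _
      have e1 : √((M : ℝ)) ^ 2 = M := Real.sq_sqrt hM
      have e2 : √((M : ℝ) + 1) ^ 2 = M + 1 := Real.sq_sqrt (by linarith)
      have e3 : √((M : ℝ) + 1 / 2) ^ 2 = M + 1 / 2 := Real.sq_sqrt (by linarith)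
      have le1 : √((M : ℝ) + 1) + √(M : ℝ) ≤ 2 * √((M : ℝ) + 1 / 2) := by
        apply abs_le_of_sq_le_sq' _ (by positivity) |>.2
        nlinarith [sq_nonneg (√((M : ℝ) + 1) - √(M : ℝ))]
      rw [div_le_iff₀ (by positivity), mul_assoc]
      refine le_mul_of_one_le_right hq ?_
      have le2 : √(M : ℝ) ≤ √((M : ℝ) + 1) := Real.sqrt_le_sqrt (by linarith)
      calc (1 : ℝ) = (√((M : ℝ) + 1) - √(M : ℝ)) * (√((M : ℝ) + 1) + √(M : ℝ)) := by
            nlinarith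
        _ ≤ _ := mul_le_mul_of_nonneg_left le1 (by linarith)
    have c1 : (((M + 1 : ℕ)) : ℝ) = (M : ℝ) + 1 := by push_cast; ring
    rw [c1]
    linarith

theorem sumF (q a : ℤ) (hq : 0 < q) (M n : ℕ) (F : ℕ → ℝ)
    (hF : ∀ t < n, F t = 0 ∨ ∃ l : ℤ, -(M : ℤ) ≤ l ∧ l < M ∧ (t : ℤ) = a + l * q ∧
      F t ≤ (q : ℝ) / (2 * √|(l : ℝ) + 1 / 2|) + 1) :
    ∑ t ∈ Finset.range n, F t ≤ 2 * ((q : ℝ) * √(M : ℝ) + M) := by
  classical
  have hq' : (0 : ℝ) ≤ (q : ℝ) := by exact_mod_cast hq.le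
  refine le_trans ?_ (sumB (q : ℝ) hq' M)
  set S := (Finset.range n).filter (fun t => F t ≠ 0) with hS
  have h1 : ∑ t ∈ Finset.range n, F t = ∑ t ∈ S, F t := by
    rw [hS, Finset.sum_filter_ne_zero]
  have h2 : ∀ t ∈ S, ∃ l : ℤ, -(M : ℤ) ≤ l ∧ l < M ∧ (t : ℤ) = a + l * q ∧
      F t ≤ (q : ℝ) / (2 * √|(l : ℝ) + 1 / 2|) + 1 := by
    intro t ht
    rw [hS, Finset.mem_filter, Finset.mem_range] at ht
    exact (hF t ht.1).resolve_left ht.2
  choose! L hL using h2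
  rw [h1]
  calc ∑ t ∈ S, F t ≤ ∑ t ∈ S, ((q : ℝ) / (2 * √|(L t : ℝ) + 1 / 2|) + 1) :=
        Finset.sum_le_sum (fun t ht => (hL t ht).2.2.2)
    _ = ∑ l ∈ S.image L, ((q : ℝ) / (2 * √|(l : ℝ) + 1 / 2|) + 1) := by
        rw [Finset.sum_image]
        intro t ht t' ht' e
        have e1 := (hL t ht).2.2.1
        have e2 := (hL t' ht').2.2.1
        rw [e] at e1
        have : (t : ℤ) = t' := by rw [e1, e2]
        exact_mod_cast this
    _ ≤ _ := by
        refine Finset.sum_le_sum_of_subset_of_nonneg ?_ (fun l _ _ => by positivity)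
        intro l hl
        obtain ⟨t, ht, rfl⟩ := Finset.mem_image.1 hl
        exact Finset.mem_Ico.2 ⟨(hL t ht).1, (hL t ht).2.1⟩

theorem rbound (hc1 : C1Stm) (q D u : ℝ) (hq : 0 < q) (hu : 0 < u) (hD : u / q ^ 2 ≤ D) :
    r D ≤ q / (2 * √u) + 1 := by
  have hD0 : 0 < D := lt_of_lt_of_le (by positivity) hD
  refine (hc1.2.2.1 D hD0).trans ?_
  have h1 : √u / q ≤ √D := by
    have := Real.sqrt_le_sqrt hD
    rwa [Real.sqrt_div hu.le, Real.sqrt_sq hq.le] at this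
  have hs : 0 < √u := Real.sqrt_pos.2 hu
  have h2 : 1 / (2 * √D) ≤ 1 / (2 * (√u / q)) :=
    one_div_le_one_div_of_le (by positivity) (by linarith)
  have h3 : 1 / (2 * (√u / q)) = q / (2 * √u) := by field_simp
  linarith

/-- the near times of a window -/
theorem near (h2 : A2Stm) (h3 : A3Stm) (h4 : A4Stm) (j : ℕ) (s : ℤ) (c : ℝ)
    (hs : |(s : ℝ)| * th j ≤ 1 / 2) (hc : |c| ≤ 1 / (4 * (Q j : ℝ)))
    (hn : ‖(((s : ℝ) * al + c : ℝ) : T1)‖ < 1 / (4 * (Q j : ℝ))) :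
    ∃ l : ℤ, s = (Q j : ℤ) * l ∧ ‖(((s : ℝ) * al + c : ℝ) : T1)‖ = |(l : ℝ) * th j + c| := by
  have hQ := Q1024 j
  have hQ0 : (0 : ℝ) < Q j := by linarith
  have hdvd : (Q j : ℤ) ∣ s := by
    by_contra hnd
    have h5 := h4 j s hs hnd
    have h6 : ‖(((s : ℝ) * al : ℝ) : T1)‖ ≤ ‖(((s : ℝ) * al + c : ℝ) : T1)‖ + ‖((c : ℝ) : T1)‖ := by
      have : (((s : ℝ) * al : ℝ) : T1) = (((s : ℝ) * al + c : ℝ) : T1) - ((c : ℝ) : T1) := by
        rw [AddCircle.coe_add, add_sub_cancel_right]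
      rw [this]; exact norm_sub_le _ _
    have h7 := nle c
    have h8 : 1 / (2 * (Q j : ℝ)) = 1 / (4 * (Q j : ℝ)) + 1 / (4 * (Q j : ℝ)) := by
      field_simp; norm_num
    linarith
  obtain ⟨l, rfl⟩ := hdvd
  refine ⟨l, rfl, ?_⟩
  have e1 : (((((Q j : ℤ) * l : ℤ) : ℝ) * al + c : ℝ) : T1) = (((l : ℝ) * th j + c : ℝ) : T1) := by
    have := h3 j
    have e2 : (((l : ℝ) * ((Q j : ℝ) * al) : ℝ) : T1) = (((l : ℝ) * th j : ℝ) : T1) := by
      have e3 : (((l : ℝ) * ((Q j : ℝ) * al) : ℝ) : T1) = l • ((((Q j : ℝ) * al) : ℝ) : T1) := by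
        rw [← AddCircle.coe_zsmul, zsmul_eq_mul]
      have e4 : (((l : ℝ) * th j : ℝ) : T1) = l • ((th j : ℝ) : T1) := by
        rw [← AddCircle.coe_zsmul, zsmul_eq_mul]
      rw [e3, e4, this]
    rw [AddCircle.coe_add, AddCircle.coe_add, ← e2]
    congr 2
    push_cast; ring
  rw [e1]
  apply neq
  have ht : 0 < th j := lt_of_lt_of_le (by positivity) (h2 j).1
  have h5 : |(l : ℝ)| * th j ≤ 1 / (2 * (Q j : ℝ)) := by
    push_cast at hs
    rw [abs_mul, abs_of_pos hQ0] at hs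
    rw [le_div_iff₀ (by positivity)]
    nlinarith
  have h6 : |(l : ℝ) * th j + c| ≤ |(l : ℝ)| * th j + |c| := by
    refine (abs_add_le _ _).trans ?_
    rw [abs_mul, abs_of_pos ht]
  have h7 : 1 / (2 * (Q j : ℝ)) ≤ 1 / 4 := by
    rw [div_le_div_iff₀ (by positivity) (by norm_num)]; linarith
  have h8 : 1 / (4 * (Q j : ℝ)) ≤ 1 / 4 := by
    rw [div_le_div_iff₀ (by positivity) (by norm_num)]; linarith
  linarith

theorem rot_rot (x : T1) (a b : ℕ) : rot (rot x a) b = rot x (a + b) := by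
  unfold rot
  rw [add_assoc, ← AddCircle.coe_add]
  congr 2
  push_cast; ring

theorem sum_blocks (f : T1 → ℝ) (q : ℕ) (B : ℝ)
    (hB : ∀ x : T1, ∑ t ∈ Finset.range q, f (rot x t) ≤ B) (x : T1) (k : ℕ) :
    ∑ t ∈ Finset.range (k * q), f (rot x t) ≤ k * B := by
  induction k with
  | zero => simp
  | succ k ih =>
    rw [Nat.succ_mul, Finset.sum_range_add]
    have h := hB (rot x (k * q))
    simp only [rot_rot] at h
    push_cast
    linarith

theorem small (h2 : A2Stm) (m j : ℕ) (hm : 1 ≤ m) (hq : (8 * (m + 1) : ℝ) ≤ Q j) (s : ℤ)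
    (hs : |(s : ℝ)| ≤ (m + 2) * (Q j : ℝ)) : |(s : ℝ)| * th j ≤ 1 / 2 := by
  have hQ := Q1024 j
  have hQ0 : (0 : ℝ) < Q j := by linarith
  have ht : 0 < th j := lt_of_lt_of_le (by positivity) (h2 j).1
  have hm' : (1 : ℝ) ≤ m := by exact_mod_cast hm
  calc |(s : ℝ)| * th j ≤ ((m + 2) * (Q j : ℝ)) * (1.001 / (Q j : ℝ) ^ 2) :=
        mul_le_mul hs (h2 j).2 ht.le (by positivity)
    _ = (m + 2) * 1.001 / (Q j : ℝ) := by field_simp
    _ ≤ 1 / 2 := by
        rw [div_le_div_iff₀ hQ0 (by norm_num)]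
        nlinarith

theorem thsmall (h2 : A2Stm) (j : ℕ) : 2 * th j ≤ 1 / (4 * (Q j : ℝ)) := by
  have hQ := Q1024 j
  have hQ0 : (0 : ℝ) < Q j := by linarith
  calc 2 * th j ≤ 2 * (1.001 / (Q j : ℝ) ^ 2) := by linarith [(h2 j).2]
    _ ≤ 1 / (4 * (Q j : ℝ)) := by
        rw [← mul_div_assoc, div_le_div_iff₀ (by positivity) (by positivity)]
        nlinarith

/-- starting point of the window -/
def xw (m j : ℕ) : T1 := ((uu j + th j / 2 - ((m : ℝ) * Q j - 1) * al : ℝ) : T1)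

theorem rot_xw (m j t : ℕ) : rot (xw m j) t =
    (((((t : ℤ) - (m * Q j - 1) : ℤ) : ℝ) * al + (uu j + th j / 2) : ℝ) : T1) := by
  unfold rot xw
  rw [← AddCircle.coe_add]
  congr 1
  push_cast; ring

theorem near0 (h2 : A2Stm) (h3 : A3Stm) (h4 : A4Stm) (h7 : A7Stm) (m j : ℕ) (hm : 1 ≤ m)
    (hq : (8 * (m + 1) : ℝ) ≤ Q j) (t : ℕ) (ht : t < (m + 1) * Q j)
    (hn : ‖rot (xw m j) t‖ < 1 / (4 * (Q j : ℝ))) :
    ∃ l : ℤ, -((m + 1 : ℕ) : ℤ) ≤ l ∧ l < ((m + 1 : ℕ) : ℤ) ∧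
      (t : ℤ) = ((m * Q j - 1) - 2 * ∑ i ∈ Finset.range j, (Q i : ℤ)) + l * (Q j : ℤ) ∧
      ‖rot (xw m j) t‖ = |(l : ℝ) + 1 / 2| * th j := by
  have hQ := Q1024 j
  have hQ0 : (0 : ℝ) < Q j := by linarith
  have htj : 0 < th j := lt_of_lt_of_le (by positivity) (h2 j).1
  obtain ⟨g1, g2⟩ := h7 j
  set T : ℕ := 2 * ∑ i ∈ Finset.range j, Q i with hT
  have hTi : (T : ℤ) = 2 * ∑ i ∈ Finset.range j, (Q i : ℤ) := by rw [hT]; push_cast; rfl
  have hQn : 1024 ≤ Q j := by exact_mod_cast hQ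
  set s : ℤ := (t : ℤ) - (m * Q j - 1) + T with hs
  have hrot : rot (xw m j) t = (((s : ℝ) * al + th j / 2 : ℝ) : T1) := by
    have e0 : (((s : ℝ) * al + th j / 2 : ℝ) : T1) =
        (((((t : ℤ) - (m * Q j - 1) : ℤ) : ℝ) * al + th j / 2 : ℝ) : T1) + (((T : ℝ) * al : ℝ) : T1) := by
      rw [← AddCircle.coe_add]; congr 1; rw [hs]; push_cast; ring
    rw [e0, ← g1, rot_xw, ← AddCircle.coe_add]
    congr 1; ring
  have htz : (t : ℤ) < (m + 1) * Q j := by exact_mod_cast ht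
  have hTz : 1000 * (T : ℤ) ≤ Q j := by exact_mod_cast g2
  have hQz : (1024 : ℤ) ≤ Q j := by exact_mod_cast hQn
  have hmz : (1 : ℤ) ≤ m := by exact_mod_cast hm
  have hT0 : (0 : ℤ) ≤ T := by positivity
  have ht0 : (0 : ℤ) ≤ t := by positivity
  have s_hi : s < 2 * (Q j : ℤ) := by rw [hs]; linarith
  have s_lo : -((m : ℤ) * Q j) < s := by rw [hs]; linarith
  have habs : |(s : ℝ)| ≤ (m + 2) * (Q j : ℝ) := by
    have hz : |s| ≤ (m + 2) * (Q j : ℤ) := by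
      rw [abs_le]; constructor <;> nlinarith
    exact_mod_cast hz
  rw [hrot] at hn ⊢
  have hts := thsmall h2 j
  obtain ⟨l, hl, hnl⟩ := near h2 h3 h4 j s (th j / 2) (small h2 m j hm hq s habs)
    (by rw [abs_of_pos (by positivity)]; linarith) hn
  refine ⟨l, ?_, ?_, ?_, ?_⟩
  · push_cast
    by_contra hcon
    push Not at hcon
    have : l ≤ -((m : ℤ) + 1) - 1 := by omega
    nlinarith
  · push_cast
    by_contra hcon
    push Not at hcon
    have : 2 ≤ l := by omega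
    nlinarith
  · rw [← hTi]; rw [hs] at hl; linarith
  · rw [hnl, show (l : ℝ) * th j + th j / 2 = ((l : ℝ) + 1 / 2) * th j by ring, abs_mul,
      abs_of_pos htj]

theorem nearBe (h2 : A2Stm) (h3 : A3Stm) (h4 : A4Stm) (h6 : A6Stm) (m j : ℕ) (hm : 1 ≤ m)
    (hq : (8 * (m + 1) : ℝ) ≤ Q j) (t : ℕ) (ht : t < (m + 1) * Q j)
    (hn : ‖rot (xw m j) t - (be : T1)‖ < 1 / (4 * (Q j : ℝ))) :
    ∃ l : ℤ, -((m + 1 : ℕ) : ℤ) ≤ l ∧ l < ((m + 1 : ℕ) : ℤ) ∧
      (t : ℤ) = ((m * Q j - 1) + 2 * Q j) + l * (Q j : ℤ) ∧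
      |(l : ℝ) + 1 / 2| * th j ≤ ‖rot (xw m j) t - (be : T1)‖ := by
  have hQ := Q1024 j
  have hQ0 : (0 : ℝ) < Q j := by linarith
  have htj : 0 < th j := lt_of_lt_of_le (by positivity) (h2 j).1
  obtain ⟨g1, g2, g3, g4, g5⟩ := h6.2 j
  have hQn : 1024 ≤ Q j := by exact_mod_cast hQ
  set s : ℤ := (t : ℤ) - (m * Q j - 1) with hs
  have hrot : rot (xw m j) t - (be : T1) = (((s : ℝ) * al + (uu j + th j / 2 - be) : ℝ) : T1) := by
    rw [rot_xw, ← AddCircle.coe_sub]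
    congr 1; rw [hs]; ring
  have htz : (t : ℤ) < (m + 1) * Q j := by exact_mod_cast ht
  have hQz : (1024 : ℤ) ≤ Q j := by exact_mod_cast hQn
  have hmz : (1 : ℤ) ≤ m := by exact_mod_cast hm
  have ht0 : (0 : ℤ) ≤ t := by positivity
  have s_hi : s < 2 * (Q j : ℤ) := by rw [hs]; linarith
  have s_lo : -((m : ℤ) * Q j) < s := by rw [hs]; linarith
  have habs : |(s : ℝ)| ≤ (m + 2) * (Q j : ℝ) := by
    have hz : |s| ≤ (m + 2) * (Q j : ℤ) := by
      rw [abs_le]; constructor <;> nlinarith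
    exact_mod_cast hz
  rw [hrot] at hn ⊢
  have hts := thsmall h2 j
  obtain ⟨l, hl, hnl⟩ := near h2 h3 h4 j s (uu j + th j / 2 - be) (small h2 m j hm hq s habs)
    (by rw [abs_of_neg (by linarith)]; linarith) hn
  have l1 : l ≤ 1 := by
    by_contra hcon
    push Not at hcon
    have : 2 ≤ l := by omega
    nlinarith
  have l0 : -(m : ℤ) < l := by
    by_contra hcon
    push Not at hcon
    nlinarith
  refine ⟨l - 2, ?_, ?_, ?_, ?_⟩
  · push_cast; omega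
  · push_cast; omega
  · rw [hs] at hl; linarith
  · rw [hnl]
    have l1' : (l : ℝ) ≤ 1 := by exact_mod_cast l1
    rw [abs_of_neg (by push_cast; linarith),
      abs_of_neg (by nlinarith : (l : ℝ) * th j + (uu j + th j / 2 - be) < 0)]
    push_cast
    nlinarith

theorem inarc (h2 : A2Stm) (h3 : A3Stm) (h4 : A4Stm) (h6 : A6Stm) (m j : ℕ) (hm : 1 ≤ m)
    (hq : (8 * (m + 1) : ℝ) ≤ Q j) (t : ℕ) (ht : t < (m + 1) * Q j - 1) :
    rot (xw m j) t ∈ arc (uu j) (be - uu j) ↔ t = m * Q j - 1 := by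
  have hQ := Q1024 j
  have hQ0 : (0 : ℝ) < Q j := by linarith
  have htj : 0 < th j := lt_of_lt_of_le (by positivity) (h2 j).1
  obtain ⟨g1, g2, g3, g4, g5⟩ := h6.2 j
  have hQn : 1024 ≤ Q j := by exact_mod_cast hQ
  have hmQ : 1024 ≤ m * Q j := by nlinarith
  have hcast : ((m * Q j - 1 : ℕ) : ℤ) = (m : ℤ) * Q j - 1 := by
    rw [Nat.cast_sub (by omega)]; push_cast; ring
  set s : ℤ := (t : ℤ) - (m * Q j - 1) with hs
  constructor
  · rintro ⟨y, ⟨hy0, hy1⟩, hy⟩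
    have htz : (t : ℤ) < (m + 1) * Q j - 1 := by
      have : t + 1 < (m + 1) * Q j := by omega
      have : (t : ℤ) + 1 < (m + 1) * Q j := by exact_mod_cast this
      linarith
    have hQz : (1024 : ℤ) ≤ Q j := by exact_mod_cast hQn
    have hmz : (1 : ℤ) ≤ m := by exact_mod_cast hm
    have ht0 : (0 : ℤ) ≤ t := by positivity
    have s_hi : s < (Q j : ℤ) := by rw [hs]; linarith
    have s_lo : -((m : ℤ) * Q j) < s := by rw [hs]; linarith
    have habs : |(s : ℝ)| ≤ (m + 2) * (Q j : ℝ) := by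
      have hz : |s| ≤ (m + 2) * (Q j : ℤ) := by
        rw [abs_le]; constructor <;> nlinarith
      exact_mod_cast hz
    have e0 : (((s : ℝ) * al + (th j / 2 - y) : ℝ) : T1) = 0 := by
      have : (((s : ℝ) * al + (th j / 2 - y) : ℝ) : T1) =
          rot (xw m j) t - ((uu j + y : ℝ) : T1) := by
        rw [rot_xw, ← AddCircle.coe_sub]
        congr 1; rw [hs]; ring
      rw [this, hy, sub_self]
    have hts := thsmall h2 j
    have hd : 0 < 1 / (4 * (Q j : ℝ)) := by positivity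
    obtain ⟨l, hl, hnl⟩ := near h2 h3 h4 j s (th j / 2 - y) (small h2 m j hm hq s habs)
      (by rw [abs_le]; constructor <;> linarith) (by rw [e0, norm_zero]; exact hd)
    rw [e0, norm_zero] at hnl
    have hz := abs_eq_zero.1 hnl.symm
    have l1 : l ≤ 0 := by
      by_contra hcon
      push Not at hcon
      have : 1 ≤ l := by omega
      nlinarith
    have l0 : 0 ≤ l := by
      by_contra hcon
      push Not at hcon
      have h8 : l ≤ -1 := by omega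
      have h8' : (l : ℝ) ≤ -1 := by exact_mod_cast h8
      nlinarith
    have l2 : l = 0 := le_antisymm l1 l0
    rw [l2, mul_zero, hs] at hl
    have : (t : ℤ) = ((m * Q j - 1 : ℕ) : ℤ) := by rw [hcast]; linarith
    exact_mod_cast this
  · intro h
    refine ⟨th j / 2, ⟨by positivity, by linarith⟩, ?_⟩
    rw [rot_xw]
    congr 1
    have : ((t : ℤ) - (m * Q j - 1) : ℤ) = 0 := by rw [h, hcast]; ring
    rw [this]; simp

theorem visits_w (h2 : A2Stm) (h3 : A3Stm) (h4 : A4Stm) (h6 : A6Stm) (m j : ℕ) (hm : 1 ≤ m)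
    (hq : (8 * (m + 1) : ℝ) ≤ Q j) (t : ℕ) (ht : t < (m + 1) * Q j) :
    visits (arc (uu j) (be - uu j)) (xw m j) t = if m * Q j ≤ t then 1 else 0 := by
  classical
  have hQn : 1024 ≤ Q j := by exact_mod_cast Q1024 j
  have hmQ : 1024 ≤ m * Q j := by nlinarith
  have h : visits (arc (uu j) (be - uu j)) (xw m j) t =
      ∑ s ∈ Finset.range t, if s = m * Q j - 1 then 1 else 0 := by
    unfold visits
    refine Finset.sum_congr rfl (fun s hs => ?_)
    rw [Finset.mem_range] at hs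
    unfold ind
    have := inarc h2 h3 h4 h6 m j hm hq s (by omega)
    by_cases h9 : s = m * Q j - 1
    · rw [if_pos (this.2 h9), if_pos h9]
    · rw [if_neg (fun h10 => h9 (this.1 h10)), if_neg h9]
  rw [h, Finset.sum_ite_eq' (Finset.range t) (m * Q j - 1)]
  simp only [Finset.mem_range]
  by_cases h9 : m * Q j ≤ t
  · rw [if_pos (by omega), if_pos h9]
  · rw [if_neg (by omega), if_neg h9]

/-- the sum of the signs over the window -/
theorem SS_w (h2 : A2Stm) (h3 : A3Stm) (h4 : A4Stm) (h6 : A6Stm) (hd1 : D1Stm) (m j : ℕ)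
    (hm : 1 ≤ m) (hq : (8 * (m + 1) : ℝ) ≤ Q j) :
    (-1) ^ Psi j (xw m j) * SS (xw m j) ((m + 1) * Q j) =
      ∑ t ∈ Finset.range (m * Q j), (-1 : ℝ) ^ Psi j (rot (xw m j) t) -
      ∑ t ∈ Finset.range (Q j), (-1 : ℝ) ^ Psi j (rot (rot (xw m j) (m * Q j)) t) := by
  have hsq : ((-1 : ℝ) ^ Psi j (xw m j)) * ((-1 : ℝ) ^ Psi j (xw m j)) = 1 := by
    rw [← mul_pow]; norm_num
  unfold SS
  rw [Finset.mul_sum, show (m + 1) * Q j = m * Q j + Q j by ring, Finset.sum_range_add]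
  have e1 : ∀ t < (m + 1) * Q j, (-1) ^ Psi j (xw m j) * sgn (xw m j) t =
      (-1 : ℝ) ^ Psi j (rot (xw m j) t) * (-1) ^ (if m * Q j ≤ t then 1 else 0) := by
    intro t ht
    rw [hd1 j (xw m j) t, visits_w h2 h3 h4 h6 m j hm hq t ht, ← mul_assoc, ← mul_assoc, hsq,
      one_mul]
  rw [sub_eq_add_neg, ← Finset.sum_neg_distrib]
  congr 1
  · refine Finset.sum_congr rfl (fun t ht => ?_)
    rw [Finset.mem_range] at ht
    rw [e1 t (by nlinarith), if_neg (by omega)]; simp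
  · refine Finset.sum_congr rfl (fun t ht => ?_)
    rw [Finset.mem_range] at ht
    rw [e1 _ (by nlinarith), if_pos (by omega), rot_rot]; simp

theorem r_split (hc1 : C1Stm) (D d : ℝ) (hd : 0 < d) :
    r D ≤ r (max D d) + (if D < d then r D else 0) := by
  split_ifs with h
  · rw [max_eq_right h.le]
    linarith [hc1.2.1 d hd]
  · rw [max_eq_left (not_lt.1 h)]; linarith

theorem TT_w (h2 : A2Stm) (h3 : A3Stm) (h4 : A4Stm) (h6 : A6Stm) (h7 : A7Stm) (hc1 : C1Stm)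
    (C₃ : ℝ) (m j : ℕ) (hC₃ : ∀ x : T1, ∑ t ∈ Finset.range (Q j), Rt (1 / (4 * (Q j : ℝ))) (rot x t)
      ≤ (Q j : ℝ) * tb + C₃ * √(Q j : ℝ))
    (hm : 1 ≤ m) (hq : (8 * (m + 1) : ℝ) ≤ Q j) :
    TT (xw m j) ((m + 1) * Q j) ≤ (m + 1) * ((Q j : ℝ) * tb + C₃ * √(Q j : ℝ)) +
      4 * ((Q j : ℝ) * √((m + 1 : ℕ) : ℝ) + (m + 1)) := by
  have hQ := Q1024 j
  have hQ0 : (0 : ℝ) < Q j := by linarith
  have hQz : (0 : ℤ) < Q j := by exact_mod_cast hQ0
  have htj : 0 < th j := lt_of_lt_of_le (by positivity) (h2 j).1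
  set d : ℝ := 1 / (4 * (Q j : ℝ)) with hd
  have hd0 : 0 < d := by positivity
  have b1 := sum_blocks (Rt d) (Q j) _ hC₃ (xw m j) (m + 1)
  have b2 : ∑ t ∈ Finset.range ((m + 1) * Q j),
      (if ‖rot (xw m j) t‖ < d then r ‖rot (xw m j) t‖ else 0) ≤
      2 * (((Q j : ℤ) : ℝ) * √((m + 1 : ℕ) : ℝ) + (m + 1 : ℕ)) := by
    refine sumF (Q j : ℤ) ((m * Q j - 1) - 2 * ∑ i ∈ Finset.range j, (Q i : ℤ)) hQz (m + 1)
      _ _ (fun t ht => ?_)
    by_cases h : ‖rot (xw m j) t‖ < d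
    · right
      obtain ⟨l, l1, l2, l3, l4⟩ := near0 h2 h3 h4 h7 m j hm hq t ht h
      refine ⟨l, l1, l2, l3, ?_⟩
      rw [if_pos h, l4]
      have hl : 0 < |(l : ℝ) + 1 / 2| := by
        rw [abs_pos]
        intro h0
        have h1 : ((2 * l + 1 : ℤ) : ℝ) = 0 := by push_cast; linarith
        have h1' : (2 * l + 1 : ℤ) = 0 := by exact_mod_cast h1
        omega
      refine rbound hc1 _ _ _ (by push_cast; exact hQ0) hl ?_
      have := (h2 j).1
      calc |(l : ℝ) + 1 / 2| / (((Q j : ℤ) : ℝ)) ^ 2 = |(l : ℝ) + 1 / 2| * (1 / (Q j : ℝ) ^ 2) := by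
            push_cast; ring
        _ ≤ _ := mul_le_mul_of_nonneg_left this hl.le
    · left; rw [if_neg h]
  have b3 : ∑ t ∈ Finset.range ((m + 1) * Q j),
      (if ‖rot (xw m j) t - (be : T1)‖ < d then r ‖rot (xw m j) t - (be : T1)‖ else 0) ≤
      2 * (((Q j : ℤ) : ℝ) * √((m + 1 : ℕ) : ℝ) + (m + 1 : ℕ)) := by
    refine sumF (Q j : ℤ) ((m * Q j - 1) + 2 * Q j) hQz (m + 1)
      _ _ (fun t ht => ?_)
    by_cases h : ‖rot (xw m j) t - (be : T1)‖ < d
    · right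
      obtain ⟨l, l1, l2, l3, l4⟩ := nearBe h2 h3 h4 h6 m j hm hq t ht h
      refine ⟨l, l1, l2, l3, ?_⟩
      rw [if_pos h]
      have hl : 0 < |(l : ℝ) + 1 / 2| := by
        rw [abs_pos]
        intro h0
        have h1 : ((2 * l + 1 : ℤ) : ℝ) = 0 := by push_cast; linarith
        have h1' : (2 * l + 1 : ℤ) = 0 := by exact_mod_cast h1
        omega
      refine rbound hc1 _ _ _ (by push_cast; exact hQ0) hl ?_
      have := (h2 j).1
      calc |(l : ℝ) + 1 / 2| / (((Q j : ℤ) : ℝ)) ^ 2 = |(l : ℝ) + 1 / 2| * (1 / (Q j : ℝ) ^ 2) := by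
            push_cast; ring
        _ ≤ |(l : ℝ) + 1 / 2| * th j := mul_le_mul_of_nonneg_left this hl.le
        _ ≤ _ := l4
    · left; rw [if_neg h]
  have b4 : TT (xw m j) ((m + 1) * Q j) ≤ ∑ t ∈ Finset.range ((m + 1) * Q j),
      (Rt d (rot (xw m j) t) +
        (if ‖rot (xw m j) t‖ < d then r ‖rot (xw m j) t‖ else 0) +
        (if ‖rot (xw m j) t - (be : T1)‖ < d then r ‖rot (xw m j) t - (be : T1)‖ else 0)) := by
    unfold TT
    refine Finset.sum_le_sum (fun t _ => ?_)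
    have i1 := r_split hc1 ‖rot (xw m j) t‖ d hd0
    have i2 := r_split hc1 ‖rot (xw m j) t - (be : T1)‖ d hd0
    unfold R Rt
    linarith
  rw [Finset.sum_add_distrib, Finset.sum_add_distrib] at b4
  push_cast at b1 b2 b3 ⊢
  linarith

theorem e2 (h1 : A1Stm) (h2 : A2Stm) (h3 : A3Stm) (h4 : A4Stm) (h5 : A5Stm) (h6 : A6Stm)
    (h7 : A7Stm) (hc1 : C1Stm) (hc3 : C3Stm) (hd1 : D1Stm) : E2Stm := by
  have _ := h1
  have _ := h5
  intro κ hκ
  refine ⟨8, fun m hm ε hε => ?_⟩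
  obtain ⟨C₃, hC₃⟩ := hc3
  obtain ⟨-, -, hκ'⟩ := hκ
  have hm' : (1 : ℝ) ≤ m := by exact_mod_cast hm
  obtain ⟨j₁, C, hj₁, hC⟩ := hκ' (ε / (2 * (m + 1))) (by positivity)
  have ev1 : ∀ᶠ j in atTop, (8 * (m + 1) : ℝ) ≤ Q j := Q_tendsto.eventually_ge_atTop _
  have ev2 : ∀ᶠ j in atTop, 2 * (|C| * (Q (j - 1) : ℝ)) ≤ ε / 2 * Q j := by
    have h8 : Tendsto (fun j => (Q (j - 1) : ℝ)) atTop atTop :=
      Q_tendsto.comp (tendsto_sub_atTop_nat 1)
    filter_upwards [h8.eventually_ge_atTop (4 * |C| / ε), eventually_ge_atTop 1] with j hj hj1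
    obtain ⟨i, rfl⟩ : ∃ i, j = i + 1 := ⟨j - 1, by omega⟩
    rw [Nat.add_sub_cancel] at hj ⊢
    rw [Q_succ]
    push_cast
    have hQ := Q1024 i
    rw [div_le_iff₀ hε] at hj
    have h9 : (Q i : ℝ) * 1 ≤ (Q i : ℝ) * (Q i : ℝ) := by
      apply mul_le_mul_of_nonneg_left <;> linarith
    have h10 : 4 * |C| * (Q i : ℝ) ≤ (Q i : ℝ) * ε * (Q i : ℝ) :=
      mul_le_mul_of_nonneg_right hj (by linarith)
    have h11 : (Q i : ℝ) * ε * ((Q i : ℝ) * 1) ≤ (Q i : ℝ) * ε * ((Q i : ℝ) * (Q i : ℝ)) := by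
      apply mul_le_mul_of_nonneg_left h9
      have : (0 : ℝ) ≤ Q i := by linarith
      positivity
    nlinarith
  have ev3 : ∀ᶠ j in atTop, (m + 1) * (C₃ * √(Q j : ℝ)) ≤ ε / 2 * Q j := by
    have h8 : Tendsto (fun j => √(Q j : ℝ)) atTop atTop :=
      Real.tendsto_sqrt_atTop.comp Q_tendsto
    filter_upwards [h8.eventually_ge_atTop (2 * (m + 1) * C₃ / ε)] with j hj
    rw [div_le_iff₀ hε] at hj
    have h9 : √(Q j : ℝ) * √(Q j : ℝ) = Q j := Real.mul_self_sqrt (by positivity)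
    have h10 := mul_le_mul_of_nonneg_right hj (Real.sqrt_nonneg (Q j : ℝ))
    nlinarith
  have ev4 : ∀ᶠ j in atTop, (4 * (m + 1) : ℝ) ≤ ε / 2 * Q j := by
    filter_upwards [Q_tendsto.eventually_ge_atTop (8 * (m + 1) / ε)] with j hj
    rw [div_le_iff₀ hε] at hj
    linarith
  obtain ⟨j₀, hj₀⟩ := eventually_atTop.1
    (ev1.and (ev2.and (ev3.and (ev4.and (eventually_ge_atTop j₁)))))
  refine ⟨j₀, fun j hj => ?_⟩
  obtain ⟨f1, f2, f3, f4, f5⟩ := hj₀ j hj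
  have hQ := Q1024 j
  have hQ0 : (0 : ℝ) < Q j := by linarith
  have htj : 0 < th j := lt_of_lt_of_le (by positivity) (h2 j).1
  have hd0 : 0 < 1 / (4 * (Q j : ℝ)) := by positivity
  refine ⟨xw m j, (-1) ^ Psi j (xw m j), neg_one_pow_eq_or ℝ _, ?_, ?_, ?_⟩
  · intro t ht
    constructor
    · intro h0
      obtain ⟨l, -, -, -, l4⟩ := near0 h2 h3 h4 h7 m j hm f1 t ht
        (by rw [h0, norm_zero]; exact hd0)
      rw [h0, norm_zero] at l4
      have hl : |(l : ℝ) + 1 / 2| = 0 := by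
        rcases mul_eq_zero.1 l4.symm with h | h
        · exact h
        · linarith
      rw [abs_eq_zero] at hl
      have h1 : ((2 * l + 1 : ℤ) : ℝ) = 0 := by push_cast; linarith
      have h1' : (2 * l + 1 : ℤ) = 0 := by exact_mod_cast h1
      omega
    · intro h0
      obtain ⟨l, -, -, -, l4⟩ := nearBe h2 h3 h4 h6 m j hm f1 t ht
        (by rw [h0, sub_self, norm_zero]; exact hd0)
      rw [h0, sub_self, norm_zero] at l4
      have hl : |(l : ℝ) + 1 / 2| = 0 := by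
        have := abs_nonneg ((l : ℝ) + 1 / 2)
        nlinarith
      rw [abs_eq_zero] at hl
      have h1 : ((2 * l + 1 : ℤ) : ℝ) = 0 := by push_cast; linarith
      have h1' : (2 * l + 1 : ℤ) = 0 := by exact_mod_cast h1
      omega
  · have h8 := TT_w h2 h3 h4 h6 h7 hc1 C₃ m j (hC₃ j) hm f1
    have h9 : √((m + 1 : ℕ) : ℝ) ≤ 2 * √(m : ℝ) := by
      rw [show (2 : ℝ) * √(m : ℝ) = √(4 * (m : ℝ)) by
        rw [Real.sqrt_mul (by norm_num), show (4 : ℝ) = 2 ^ 2 by norm_num,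
          Real.sqrt_sq (by norm_num)]]
      apply Real.sqrt_le_sqrt
      push_cast; linarith
    have h10 := mul_le_mul_of_nonneg_left h9 hQ0.le
    push_cast at h8 h10 ⊢
    nlinarith
  · rw [SS_w h2 h3 h4 h6 hd1 m j hm f1]
    have g1 := hC j f5 (m * Q j) (xw m j)
    have g2 := hC j f5 (Q j) (rot (xw m j) (m * Q j))
    have g3 : C * (Q (j - 1) : ℝ) ≤ |C| * (Q (j - 1) : ℝ) :=
      mul_le_mul_of_nonneg_right (le_abs_self C) (Nat.cast_nonneg _)
    rw [abs_le] at g1 g2 ⊢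
    have g4 : ε / (2 * ((m : ℝ) + 1)) * (m * Q j : ℕ) + ε / (2 * ((m : ℝ) + 1)) * Q j =
        ε / 2 * Q j := by
      push_cast; field_simp
    push_cast at g1 g2 g4
    constructor <;> nlinarith [g1.1, g1.2, g2.1, g2.2]

end

end Pool.Agent.Y925.RS
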